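import Pool.Agent.Lib_helper31.GC34.Defs

/-!
# Block B1: isotropy of the trial operators

`iso_cfc` (pointwise form) is helper13's proof; `iso_Y` is the integrated form.
-/

set_option autoImplicit false
set_option linter.unusedVariables false
set_option linter.unusedSectionVars false

open scoped BigOperators ComplexOrder Kronecker MatrixOrder
open MeasureTheory Set Matrix

namespace Pool.Agent.Lib_helper29.GC34.B1

open Pool.Agent.GC34

variable {ι : Type} [Fintype ι] [DecidableEq ι]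

/-! ### pointwise isotropy (helper13) -/

theorem trace_iso_core {C X Z P Q : Matrix ι ι ℂ} (hP : P * X = X * P) (hQ : Q * Z = Z * Q)
    (a b c : ℂ) (hC : C = a • X + b • Z + c • (1 : Matrix ι ι ℂ)) :
    (C * (P * Q)).trace = (C * (Q * P)).trace := by
  have e1 : (X * (P * Q)).trace = (X * (Q * P)).trace := by
    calc (X * (P * Q)).trace = (P * (X * Q)).trace := by
          rw [← mul_assoc, ← hP, mul_assoc]
      _ = (X * (Q * P)).trace := by rw [trace_mul_comm, mul_assoc]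
  have e2 : (Z * (P * Q)).trace = (Z * (Q * P)).trace := by
    calc (Z * (P * Q)).trace = (P * (Q * Z)).trace := by
          rw [trace_mul_comm, mul_assoc]
      _ = (Z * (Q * P)).trace := by rw [hQ, trace_mul_comm, mul_assoc]
  have e3 : (P * Q).trace = (Q * P).trace := trace_mul_comm P Q
  rw [hC]
  simp only [add_mul, smul_mul_assoc, one_mul, trace_add, trace_smul, e1, e2, e3]

theorem cfc_comm_cfc {X Z : Matrix ι ι ℂ} (h : X * Z = Z * X) (f g : ℝ → ℝ) :
    cfc f X * cfc g Z = cfc g Z * cfc f X := by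
  have h1 : Commute X Z := h
  have h2 : Commute (cfc f X) Z := h1.cfc_real f
  exact (h2.symm.cfc_real g).symm

theorem iso_cfc {Ch Dh : Matrix ι ι ℂ}
    (a b c a' b' c' : ℝ) (f g : ℝ → ℝ) :
    (Ch * (cfc f (a • Ch + b • Dh + c • (1 : Matrix ι ι ℂ)) *
      cfc g (a' • Ch + b' • Dh + c' • (1 : Matrix ι ι ℂ)))).trace =
    (Ch * (cfc g (a' • Ch + b' • Dh + c' • (1 : Matrix ι ι ℂ)) *
      cfc f (a • Ch + b • Dh + c • (1 : Matrix ι ι ℂ)))).trace := by
  by_cases hdet : a * b' - b * a' = 0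
  · have hc : (a • Ch + b • Dh + c • (1 : Matrix ι ι ℂ)) *
        (a' • Ch + b' • Dh + c' • (1 : Matrix ι ι ℂ)) =
        (a' • Ch + b' • Dh + c' • (1 : Matrix ι ι ℂ)) *
        (a • Ch + b • Dh + c • (1 : Matrix ι ι ℂ)) := by
      have : (a • Ch + b • Dh + c • (1 : Matrix ι ι ℂ)) *
          (a' • Ch + b' • Dh + c' • (1 : Matrix ι ι ℂ)) -
          (a' • Ch + b' • Dh + c' • (1 : Matrix ι ι ℂ)) *
          (a • Ch + b • Dh + c • (1 : Matrix ι ι ℂ)) =
          (a * b' - b * a') • (Ch * Dh - Dh * Ch) := by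
        simp only [mul_add, add_mul, smul_mul_assoc, mul_smul_comm, mul_one, one_mul, sub_smul,
          smul_sub, smul_add, smul_smul]
        ext i j
        simp only [Matrix.add_apply, Matrix.sub_apply, Matrix.smul_apply, Complex.real_smul]
        push_cast
        ring
      rw [hdet, zero_smul] at this
      exact sub_eq_zero.1 this
    rw [cfc_comm_cfc hc f g]
  · have hdet' : ((a : ℂ) * b' - b * a') ≠ 0 := by exact_mod_cast hdet
    have h1 : cfc f (a • Ch + b • Dh + c • (1 : Matrix ι ι ℂ)) *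
        (a • Ch + b • Dh + c • (1 : Matrix ι ι ℂ)) =
        (a • Ch + b • Dh + c • (1 : Matrix ι ι ℂ)) *
        cfc f (a • Ch + b • Dh + c • (1 : Matrix ι ι ℂ)) := (Commute.refl _).cfc_real f
    have h2 : cfc g (a' • Ch + b' • Dh + c' • (1 : Matrix ι ι ℂ)) *
        (a' • Ch + b' • Dh + c' • (1 : Matrix ι ι ℂ)) =
        (a' • Ch + b' • Dh + c' • (1 : Matrix ι ι ℂ)) *
        cfc g (a' • Ch + b' • Dh + c' • (1 : Matrix ι ι ℂ)) := (Commute.refl _).cfc_real g
    refine trace_iso_core h1 h2 ((b' : ℂ) / ((a : ℂ) * b' - b * a'))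
      (-(b : ℂ) / ((a : ℂ) * b' - b * a'))
      (-((b' : ℂ) * c - b * c') / ((a : ℂ) * b' - b * a')) ?_
    ext i j
    simp only [Matrix.add_apply, Matrix.smul_apply, Complex.real_smul, smul_eq_mul]
    calc Ch i j = ((a : ℂ) * b' - b * a') * Ch i j / ((a : ℂ) * b' - b * a') :=
          (mul_div_cancel_left₀ _ hdet').symm
      _ = _ := by ring

/-! ### entrywise integrals -/

/-- `2 ∫ P s ds`, entry by entry -/
noncomputable def mint (P : ℝ → Matrix ι ι ℂ) : Matrix ι ι ℂ :=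
  Matrix.of fun i j => 2 * ∫ s in Ioi (0 : ℝ), P s i j

/-- every entry is integrable on `(0, ∞)` -/
def EInt (P : ℝ → Matrix ι ι ℂ) : Prop := ∀ i j, IntegrableOn (fun s => P s i j) (Ioi 0)

theorem EInt.mul_left {P : ℝ → Matrix ι ι ℂ} (hP : EInt P) (T : Matrix ι ι ℂ) :
    EInt fun s => T * P s := by
  intro i j
  simp only [Matrix.mul_apply]
  exact integrable_finsetSum _ fun k _ => (hP k j).const_mul (T i k)

theorem trace_mint {P : ℝ → Matrix ι ι ℂ} (hP : EInt P) :
    (mint P).trace = 2 * ∫ s in Ioi (0 : ℝ), (P s).trace := by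
  simp only [Matrix.trace, Matrix.diag, mint, Matrix.of_apply]
  rw [integral_finsetSum _ fun i _ => hP i i, Finset.mul_sum]

theorem mul_mint {P : ℝ → Matrix ι ι ℂ} (hP : EInt P) (T : Matrix ι ι ℂ) :
    T * mint P = mint fun s => T * P s := by
  ext i j
  simp only [Matrix.mul_apply, mint, Matrix.of_apply]
  rw [integral_finsetSum _ fun k _ => (hP k j).const_mul (T i k), Finset.mul_sum]
  refine Finset.sum_congr rfl fun k _ => ?_
  rw [integral_const_mul]
  ring

theorem trace_mul_mint {P : ℝ → Matrix ι ι ℂ} (hP : EInt P) (T : Matrix ι ι ℂ) :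
    (T * mint P).trace = 2 * ∫ s in Ioi (0 : ℝ), (T * P s).trace := by
  rw [mul_mint hP T, trace_mint (hP.mul_left T)]

/-- the integrated isotropy -/
theorem iso_int {P Q : ℝ → Matrix ι ι ℂ} (hP : EInt P) (hQ : EInt Q) {T : Matrix ι ι ℂ}
    (h : ∀ s t, (T * (P s * Q t)).trace = (T * (Q t * P s)).trace) :
    (T * (mint P * mint Q)).trace = (T * (mint Q * mint P)).trace := by
  have e1 : (T * (mint P * mint Q)).trace =
      2 * ∫ t in Ioi (0 : ℝ), 2 * ∫ s in Ioi (0 : ℝ), (T * (P s * Q t)).trace := by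
    rw [← mul_assoc, trace_mul_mint hQ]
    congr 1
    refine integral_congr_ae (Filter.Eventually.of_forall fun t => ?_)
    show (T * mint P * Q t).trace = 2 * ∫ s in Ioi (0 : ℝ), (T * (P s * Q t)).trace
    have : (T * mint P * Q t).trace = (Q t * T * mint P).trace := by
      rw [trace_mul_comm, ← mul_assoc]
    rw [this, trace_mul_mint hP]
    congr 1
    refine integral_congr_ae (Filter.Eventually.of_forall fun s => ?_)
    show (Q t * T * P s).trace = (T * (P s * Q t)).trace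
    rw [mul_assoc, trace_mul_comm, mul_assoc]
  have e2 : (T * (mint Q * mint P)).trace =
      2 * ∫ t in Ioi (0 : ℝ), 2 * ∫ s in Ioi (0 : ℝ), (T * (Q t * P s)).trace := by
    have : (T * (mint Q * mint P)).trace = (mint P * T * mint Q).trace := by
      rw [← mul_assoc, trace_mul_comm, ← mul_assoc]
    rw [this, trace_mul_mint hQ]
    congr 1
    refine integral_congr_ae (Filter.Eventually.of_forall fun t => ?_)
    show (mint P * T * Q t).trace = 2 * ∫ s in Ioi (0 : ℝ), (T * (Q t * P s)).trace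
    have : (mint P * T * Q t).trace = (T * Q t * mint P).trace := by
      rw [mul_assoc, trace_mul_comm]
    rw [this, trace_mul_mint hP]
    congr 1
    refine integral_congr_ae (Filter.Eventually.of_forall fun s => ?_)
    show (T * Q t * P s).trace = (T * (Q t * P s)).trace
    rw [mul_assoc]
  rw [e1, e2]
  simp only [h]

/-! ### integrability of `s ↦ (X - s H)_+` -/

section
open scoped Matrix.Norms.L2Operator

private theorem cont_cfc_aux {Y : Type*} [TopologicalSpace Y]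
    (f : ℝ → ℝ) (hf : Continuous f) (a : Y → Matrix ι ι ℂ) (ha : Continuous a)
    (hs : ∀ x, (a x).IsHermitian) : Continuous fun x => cfc f (a x) :=
  Continuous.cfc_of_mem_nhdsSet (𝕜 := ℝ) (A := Matrix ι ι ℂ) (s := Set.univ) f (a := a)
    (Filter.univ_mem) ha (fun x => (hs x)) hf.continuousOn

end

theorem isHermitian_line {X H : Matrix ι ι ℂ} (hX : X.IsHermitian) (hH : H.IsHermitian) (s : ℝ) :
    (X - s • H).IsHermitian := by
  refine hX.sub ?_
  rw [IsHermitian, conjTranspose_smul, hH.eq, star_trivial]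

theorem continuous_pos {X H : Matrix ι ι ℂ} (hX : X.IsHermitian) (hH : H.IsHermitian) (i j : ι) :
    Continuous fun s : ℝ => pos (X - s • H) i j := by
  have h1 : Continuous fun s : ℝ => pos (X - s • H) :=
    cont_cfc_aux _ (continuous_id.max continuous_const) _
      (continuous_const.sub (continuous_id.smul continuous_const))
      fun s => isHermitian_line hX hH s
  exact (continuous_apply j).comp ((continuous_apply i).comp h1)

theorem cont_spec (f : ℝ → ℝ) (X : Matrix ι ι ℂ) : ContinuousOn f (spectrum ℝ X) :=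
  (Matrix.finite_real_spectrum (A := X)).continuousOn f

theorem pos_eq_zero {X : Matrix ι ι ℂ} (h : (-X).PosSemidef) : pos X = 0 := by
  have h1 : ∀ x ∈ spectrum ℝ X, x ≤ 0 := by
    intro x hx
    have h2 : (0 : Matrix ι ι ℂ) ≤ -X := h.nonneg
    have h3 : -x ∈ spectrum ℝ (-X) := by
      rw [← spectrum.neg_eq]
      simpa using hx
    have := spectrum_nonneg_of_nonneg h2 h3
    linarith
  rw [pos]
  have h4 : cfc (fun x : ℝ => max x 0) X = cfc (fun _ : ℝ => (0 : ℝ)) X :=
    cfc_congr fun x hx => max_eq_right (h1 x hx)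
  rw [h4, cfc_const_zero]

theorem exists_upper {C : Matrix ι ι ℂ} (hC : C.IsHermitian) :
    ∃ c : ℝ, 0 ≤ c ∧ (c • (1 : Matrix ι ι ℂ) - C).PosSemidef := by
  obtain ⟨c, hc⟩ := (Matrix.finite_real_spectrum (A := C)).bddAbove
  refine ⟨max c 0, le_max_right _ _, Matrix.nonneg_iff_posSemidef.1 ?_⟩
  have hC' : IsSelfAdjoint C := hC
  have h1 : max c 0 • (1 : Matrix ι ι ℂ) - C = cfc (fun x : ℝ => max c 0 - x) C := by
    rw [cfc_sub _ _ C (cont_spec _ _) (cont_spec _ _), cfc_const (max c 0) C hC', cfc_id' ℝ C hC',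
      Algebra.algebraMap_eq_smul_one]
  rw [h1]
  exact cfc_nonneg fun x hx => sub_nonneg.2 ((hc hx).trans (le_max_left _ _))

theorem exists_lower {H : Matrix ι ι ℂ} (hH : H.PosDef) :
    ∃ h : ℝ, 0 < h ∧ (H - h • (1 : Matrix ι ι ℂ)).PosSemidef := by
  have hpos : ∀ x ∈ spectrum ℝ H, 0 < x := by
    intro x hx
    rw [hH.isHermitian.spectrum_real_eq_range_eigenvalues] at hx
    obtain ⟨i, rfl⟩ := hx
    exact hH.eigenvalues_pos i
  have h0 : ∃ h : ℝ, 0 < h ∧ ∀ x ∈ spectrum ℝ H, h ≤ x := by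
    rcases (spectrum ℝ H).eq_empty_or_nonempty with he | hne
    · exact ⟨1, one_pos, fun x hx => by rw [he] at hx; exact absurd hx (Set.notMem_empty x)⟩
    · obtain ⟨a, ha, hmin⟩ := Set.exists_min_image _ id (Matrix.finite_real_spectrum (A := H)) hne
      exact ⟨a, hpos a ha, fun x hx => hmin x hx⟩
  obtain ⟨h, hh, hle⟩ := h0
  refine ⟨h, hh, Matrix.nonneg_iff_posSemidef.1 ?_⟩
  have hH' : IsSelfAdjoint H := hH.isHermitian
  have h1 : H - h • (1 : Matrix ι ι ℂ) = cfc (fun x : ℝ => x - h) H := by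
    rw [cfc_sub _ _ H (cont_spec _ _) (cont_spec _ _), cfc_const h H hH',
      cfc_id' ℝ H hH', Algebra.algebraMap_eq_smul_one]
  rw [h1]
  exact cfc_nonneg fun x hx => sub_nonneg.2 (hle x hx)

/-- for large `s` the positive part vanishes -/
theorem exists_bound {C H : Matrix ι ι ℂ} (hC : C.IsHermitian) (hH : H.PosDef) :
    ∃ S : ℝ, 0 < S ∧ ∀ s, S ≤ s → pos (C - s • H) = 0 := by
  obtain ⟨c, hc, hcC⟩ := exists_upper hC
  obtain ⟨h, hh, hhH⟩ := exists_lower hH
  refine ⟨(c + 1) / h, by positivity, fun s hs => pos_eq_zero ?_⟩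
  have hs1 : c + 1 ≤ s * h := by rwa [div_le_iff₀ hh] at hs
  have hs0 : 0 ≤ s := le_trans (by positivity) hs
  have h1 : -(C - s • H) = (c • (1 : Matrix ι ι ℂ) - C) + s • (H - h • (1 : Matrix ι ι ℂ)) +
      (s * h - c) • (1 : Matrix ι ι ℂ) := by
    rw [smul_sub, smul_smul, sub_smul]
    abel
  rw [h1]
  refine (hcC.add (hhH.smul hs0)).add (Matrix.PosSemidef.one.smul ?_)
  linarith

/-- entries of `(X - s H)_+` are integrable -/
theorem eint_pos {X H : Matrix ι ι ℂ} (hX : X.IsHermitian) (hH : H.PosDef) :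
    EInt fun s : ℝ => pos (X - s • H) := by
  intro i j
  obtain ⟨S, hS, hz⟩ := exists_bound hX hH
  have h1 : Ioi (0 : ℝ) = Ioc 0 S ∪ Ioi S := (Ioc_union_Ioi_eq_Ioi hS.le).symm
  rw [h1]
  refine IntegrableOn.union ?_ ?_
  · exact ((continuous_pos hX hH.isHermitian i j).integrableOn_Icc (a := 0) (b := S)).mono_set
      Ioc_subset_Icc_self
  · refine (integrableOn_zero (s := Ioi S)).congr_fun (fun s hs => ?_) measurableSet_Ioi
    show (0 : ℂ) = pos (X - s • H) i j
    rw [hz s (le_of_lt hs)]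
    rfl

theorem Yy_eq (X H : Matrix ι ι ℂ) : Yy X H = mint fun s : ℝ => pos (X - s • H) := rfl

theorem pos_isHermitian (X : Matrix ι ι ℂ) : (pos X).IsHermitian := by
  unfold pos
  exact cfc_predicate _ _

/-- `Yy` is Hermitian (no hypothesis is needed) -/
theorem Yy_isHermitian' (X H : Matrix ι ι ℂ) : (Yy X H).IsHermitian := by
  ext i j
  simp only [Matrix.conjTranspose_apply, Yy, Matrix.of_apply]
  rw [Complex.star_def, map_mul, ← integral_conj, Complex.conj_ofNat]
  congr 1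
  refine integral_congr_ae (Filter.Eventually.of_forall fun s => ?_)
  show (starRingEnd ℂ) (pos (X - s • H) j i) = pos (X - s • H) i j
  exact (pos_isHermitian (X - s • H)).apply i j

/-- isotropy of the trial operators, general form: `T` Hermitian, `X` and both `H`s in the real
span of `T`, `E`, `1`, with `X = x₁ T + x₂ E + x₀`, `H = h₁ T + h₂ E + h₀` -/
theorem iso_Y_gen {T E X H X' H' : Matrix ι ι ℂ} (hX : X.IsHermitian) (hX' : X'.IsHermitian)
    (hH : H.PosDef) (hH' : H'.PosDef) (x1 x2 x0 h1 h2 h0 y1 y2 y0 k1 k2 k0 : ℝ)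
    (eX : X = x1 • T + x2 • E + x0 • (1 : Matrix ι ι ℂ))
    (eH : H = h1 • T + h2 • E + h0 • (1 : Matrix ι ι ℂ))
    (eX' : X' = y1 • T + y2 • E + y0 • (1 : Matrix ι ι ℂ))
    (eH' : H' = k1 • T + k2 • E + k0 • (1 : Matrix ι ι ℂ)) :
    (T * (Yy X H * Yy X' H')).trace = (T * (Yy X' H' * Yy X H)).trace := by
  rw [Yy_eq, Yy_eq]
  refine iso_int (eint_pos hX hH) (eint_pos hX' hH') fun s t => ?_
  have e1 : X - s • H = (x1 - s * h1) • T + (x2 - s * h2) • E +
      (x0 - s * h0) • (1 : Matrix ι ι ℂ) := by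
    rw [eX, eH]
    simp only [smul_add, smul_smul, sub_smul]
    abel
  have e2 : X' - t • H' = (y1 - t * k1) • T + (y2 - t * k2) • E +
      (y0 - t * k0) • (1 : Matrix ι ι ℂ) := by
    rw [eX', eH']
    simp only [smul_add, smul_smul, sub_smul]
    abel
  rw [e1, e2]
  exact iso_cfc _ _ _ _ _ _ _ _

/-- the frozen form of the block -/
theorem iso_Y {Ch Dh : Matrix ι ι ℂ} (hC : Ch.IsHermitian) (μ β β' : ℝ)
    (hH : (Ch + β • Dh).PosDef) (hH' : (Ch + β' • Dh).PosDef) :
    (Ch * (Yy (Ch - μ • 1) (Ch + β • Dh) * Yy (Ch - μ • 1) (Ch + β' • Dh))).trace =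
    (Ch * (Yy (Ch - μ • 1) (Ch + β' • Dh) * Yy (Ch - μ • 1) (Ch + β • Dh))).trace := by
  have hX : (Ch - μ • (1 : Matrix ι ι ℂ)).IsHermitian :=
    isHermitian_line hC Matrix.isHermitian_one μ
  have eX : Ch - μ • (1 : Matrix ι ι ℂ) = (1 : ℝ) • Ch + (0 : ℝ) • Dh +
      (-μ) • (1 : Matrix ι ι ℂ) := by
    rw [one_smul, zero_smul, neg_smul]
    abel
  have eH : ∀ b : ℝ, Ch + b • Dh = (1 : ℝ) • Ch + b • Dh + (0 : ℝ) • (1 : Matrix ι ι ℂ) := by
    intro b
    rw [one_smul, zero_smul, add_zero]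
  exact iso_Y_gen hX hX hH hH' 1 0 (-μ) 1 β 0 1 0 (-μ) 1 β' 0 eX (eH β) eX (eH β')

/-- the form with left associated products -/
theorem iso_Y_assoc {Ch Dh : Matrix ι ι ℂ} (hC : Ch.IsHermitian) (μ β β' : ℝ)
    (hH : (Ch + β • Dh).PosDef) (hH' : (Ch + β' • Dh).PosDef) :
    (Ch * Yy (Ch - μ • 1) (Ch + β • Dh) * Yy (Ch - μ • 1) (Ch + β' • Dh)).trace =
    (Ch * Yy (Ch - μ • 1) (Ch + β' • Dh) * Yy (Ch - μ • 1) (Ch + β • Dh)).trace := by
  rw [mul_assoc, mul_assoc]
  exact iso_Y hC μ β β' hH hH'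

end Pool.Agent.Lib_helper29.GC34.B1

namespace Pool.Agent.Lib_helper29.GC34

open Pool.Agent.GC34 Pool.Agent.RC

variable {ι : Type} [Fintype ι] [DecidableEq ι]

/-! ### the statements of `Wanted.lean` -/

theorem Yy_isHermitian {C H : Matrix ι ι ℂ} (hC : C.IsHermitian) (hH : H.PosDef) :
    (Yy C H).IsHermitian := B1.Yy_isHermitian' C H

theorem iso_cfc {Ch Dh : Matrix ι ι ℂ} (hC : Ch.IsHermitian) (hD : Dh.IsHermitian)
    (a b c a' b' c' : ℝ) (f g : ℝ → ℝ) :
    (Ch * (cfc f (a • Ch + b • Dh + c • 1) * cfc g (a' • Ch + b' • Dh + c' • 1))).trace =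
    (Ch * (cfc g (a' • Ch + b' • Dh + c' • 1) * cfc f (a • Ch + b • Dh + c • 1))).trace :=
  B1.iso_cfc a b c a' b' c' f g

theorem iso_Y {Ch Dh : Matrix ι ι ℂ} (hC : Ch.IsHermitian) (hD : Dh.IsHermitian) (μ β β' : ℝ)
    (hH : (Ch + β • Dh).PosDef) (hH' : (Ch + β' • Dh).PosDef) :
    (Ch * (Yy (Ch - μ • 1) (Ch + β • Dh) * Yy (Ch - μ • 1) (Ch + β' • Dh))).trace =
    (Ch * (Yy (Ch - μ • 1) (Ch + β' • Dh) * Yy (Ch - μ • 1) (Ch + β • Dh))).trace :=
  B1.iso_Y hC μ β β' hH hH'

end Pool.Agent.Lib_helper29.GC34
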